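import Mathlib

/-!
# A non-classical symmetric net whose group is transitive on joined and on non-joined pairs

The symmetric `(3, 2)`-net of the generalized Hadamard matrix of order `6` over the group of
order `3` (its `18` points are the hexacode words of weight `6`).
-/

set_option autoImplicit false

namespace Pool.Agent.Results.MP_36fbc5_co.HexacodeNet

open Finset

section Defs

variable {V : Type} [Fintype V] [DecidableEq V]

/-- `B` is the set of blocks of an `(s, r, μ)`-net with point set `V`: there are `s ^ 2 * μ` points,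
all blocks have `s * μ` points, and `B` is the union of classes `c 0, …, c (r - 1)` each of which is
a partition of the point set, two blocks of different classes meeting in exactly `μ` points. -/
def IsNet (s r μ : ℕ) (B : Finset (Finset V)) : Prop :=
  Fintype.card V = s ^ 2 * μ ∧ (∀ b ∈ B, b.card = s * μ) ∧
    ∃ c : Fin r → Finset (Finset V), (∀ b, b ∈ B ↔ ∃ i, b ∈ c i) ∧
      (∀ i x, ∃! b, b ∈ c i ∧ x ∈ b) ∧
      ∀ i j, i ≠ j → ∀ b ∈ c i, ∀ b' ∈ c j, (b ∩ b').card = μ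

/-- The blocks of the dual structure, whose points are the blocks of `B`: for each `x` the set of
all blocks through `x`. -/
def dualBlocks (B : Finset (Finset V)) : Finset (Finset {b // b ∈ B}) :=
  univ.image (fun x : V => univ.filter (fun b : {b // b ∈ B} => x ∈ b.1))

/-- `B` is the set of blocks of a symmetric `(s, μ)`-net: `B` and its dual are both
`(s, s * μ, μ)`-nets (where `s ≥ 2`, `μ ≥ 1` and `s * μ ≥ 3`). -/
def IsSymmetricNet (s μ : ℕ) (B : Finset (Finset V)) : Prop :=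
  2 ≤ s ∧ 1 ≤ μ ∧ 3 ≤ s * μ ∧ IsNet s (s * μ) μ B ∧ IsNet s (s * μ) μ (dualBlocks B)

/-- Two distinct points are joined if some block contains both. -/
def Joined (B : Finset (Finset V)) (x y : V) : Prop := x ≠ y ∧ ∃ b ∈ B, x ∈ b ∧ y ∈ b

/-- `B` is classical: up to a bijection `e` of its points with the affine space `K ^ d`, where `K` is a
finite field and `d ≥ 2`, the blocks are the hyperplanes `f = c` which are not parallel to the line
spanned by a vector `v ≠ 0`, that is, those with `f v ≠ 0`. -/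
def IsClassical (B : Finset (Finset V)) : Prop :=
  ∃ (K : Type) (_ : Field K) (_ : Fintype K) (d : ℕ) (v : Fin d → K) (e : V ≃ (Fin d → K)),
    2 ≤ d ∧ v ≠ 0 ∧ ∀ b : Finset V, b ∈ B ↔
      ∃ (f : (Fin d → K) →ₗ[K] K) (c : K), f v ≠ 0 ∧ ∀ x, x ∈ b ↔ f (e x) = c

end Defs

/-- exponents of the generalized Hadamard matrix -/
def hl : List (List ℕ) :=
  [[0, 0, 0, 0, 0, 0], [0, 0, 1, 1, 2, 2], [0, 1, 0, 2, 2, 1], [0, 1, 2, 0, 1, 2],
   [0, 2, 2, 1, 0, 1], [0, 2, 1, 2, 1, 0]]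

/-- the point `x = 3 i + a` lies on the block `y = 3 j + c` -/
def inc (x y : Fin 18) : Bool :=
  (x.val % 3) == (((hl.getD (x.val / 3) []).getD (y.val / 3) 0 + y.val % 3) % 3)

/-- the block with index `y` -/
def blk (y : Fin 18) : Finset (Fin 18) := univ.filter (fun x => inc x y = true)

/-- the blocks -/
def B0 : Finset (Finset (Fin 18)) := univ.image blk

/-- the classes of blocks -/
def cls (i : Fin 6) : Finset (Finset (Fin 18)) := (univ.filter (fun y : Fin 18 => y.val / 3 = i.val)).image blk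

theorem blk_inj : Function.Injective blk := by decide

theorem card_B0 : B0.card = 18 := by
  rw [B0, card_image_of_injective _ blk_inj]; rfl

theorem isNet0 : IsNet 3 (3 * 2) 2 B0 := by
  refine ⟨rfl, ?_, cls, ?_, ?_, ?_⟩
  · intro b hb
    obtain ⟨y, _, rfl⟩ := mem_image.1 hb
    revert y; decide
  · intro b
    constructor
    · intro hb
      obtain ⟨y, _, rfl⟩ := mem_image.1 hb
      refine ⟨⟨y.val / 3, by omega⟩, mem_image.2 ⟨y, mem_filter.2 ⟨mem_univ _, rfl⟩, rfl⟩⟩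
    · rintro ⟨i, hi⟩
      obtain ⟨y, _, rfl⟩ := mem_image.1 hi
      exact mem_image_of_mem _ (mem_univ _)
  · intro i x
    have h1 : ∃ y : Fin 18, y.val / 3 = i.val ∧ inc x y = true := by revert i x; decide
    have h2 : ∀ y z : Fin 18, y.val / 3 = i.val → z.val / 3 = i.val → inc x y = true →
        inc x z = true → y = z := by revert i x; decide
    obtain ⟨y, hy1, hy2⟩ := h1
    refine ⟨blk y, ⟨mem_image.2 ⟨y, mem_filter.2 ⟨mem_univ _, hy1⟩, rfl⟩,
      mem_filter.2 ⟨mem_univ _, hy2⟩⟩, ?_⟩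
    rintro b ⟨hb, hxb⟩
    obtain ⟨z, hz, rfl⟩ := mem_image.1 hb
    rw [h2 y z hy1 (mem_filter.1 hz).2 hy2 (mem_filter.1 hxb).2]
  · have h : ∀ y z : Fin 18, y.val / 3 ≠ z.val / 3 → (blk y ∩ blk z).card = 2 := by decide
    intro i j hij b hb b' hb'
    obtain ⟨y, hy, rfl⟩ := mem_image.1 hb
    obtain ⟨z, hz, rfl⟩ := mem_image.1 hb'
    apply h
    rw [(mem_filter.1 hy).2, (mem_filter.1 hz).2]
    exact fun e => hij (Fin.ext e)

/-- the dual block of `x` -/
def dblk (x : Fin 18) : Finset {b // b ∈ B0} := univ.filter (fun b : {b // b ∈ B0} => x ∈ b.1)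

/-- blocks and block indices -/
def toB (y : Fin 18) : {b // b ∈ B0} := ⟨blk y, mem_image_of_mem _ (mem_univ _)⟩

theorem toB_bij : Function.Bijective toB := by
  constructor
  · intro y z h
    exact blk_inj (congrArg Subtype.val h)
  · rintro ⟨b, hb⟩
    obtain ⟨y, _, rfl⟩ := mem_image.1 hb
    exact ⟨y, rfl⟩

theorem dblk_eq (x : Fin 18) : dblk x = (univ.filter (fun y => inc x y = true)).image toB := by
  ext b
  obtain ⟨y, rfl⟩ := toB_bij.2 b
  simp only [dblk, mem_filter, mem_univ, true_and, mem_image]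
  constructor
  · intro h
    exact ⟨y, (mem_filter.1 h).2, rfl⟩
  · rintro ⟨z, hz, he⟩
    rw [toB_bij.1 he] at hz
    exact mem_filter.2 ⟨mem_univ _, hz⟩

theorem mem_dblk (x y : Fin 18) : toB y ∈ dblk x ↔ inc x y = true := by
  simp [dblk, toB, blk]

theorem isNet1 : IsNet 3 (3 * 2) 2 (dualBlocks B0) := by
  refine ⟨?_, ?_, fun i => (univ.filter (fun x : Fin 18 => x.val / 3 = i.val)).image dblk,
    ?_, ?_, ?_⟩
  · rw [Fintype.card_coe, card_B0]; norm_num
  · intro b hb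
    obtain ⟨x, _, rfl⟩ := mem_image.1 hb
    change (dblk x).card = _
    rw [dblk_eq, card_image_of_injective _ toB_bij.1]
    revert x; decide
  · intro b
    constructor
    · intro hb
      obtain ⟨y, _, rfl⟩ := mem_image.1 hb
      refine ⟨⟨y.val / 3, by omega⟩, mem_image.2 ⟨y, mem_filter.2 ⟨mem_univ _, rfl⟩, rfl⟩⟩
    · rintro ⟨i, hi⟩
      obtain ⟨y, _, rfl⟩ := mem_image.1 hi
      exact mem_image_of_mem _ (mem_univ _)
  · intro i b
    obtain ⟨y, rfl⟩ := toB_bij.2 b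
    have h1 : ∃ x : Fin 18, x.val / 3 = i.val ∧ inc x y = true := by revert i y; decide
    have h2 : ∀ x z : Fin 18, x.val / 3 = i.val → z.val / 3 = i.val → inc x y = true →
        inc z y = true → x = z := by revert i y; decide
    obtain ⟨x, hx1, hx2⟩ := h1
    refine ⟨dblk x, ⟨mem_image.2 ⟨x, mem_filter.2 ⟨mem_univ _, hx1⟩, rfl⟩, (mem_dblk x y).2 hx2⟩, ?_⟩
    rintro c ⟨hc, hyc⟩
    obtain ⟨z, hz, rfl⟩ := mem_image.1 hc
    rw [h2 x z hx1 (mem_filter.1 hz).2 hx2 ((mem_dblk z y).1 hyc)]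
  · have h : ∀ x z : Fin 18, x.val / 3 ≠ z.val / 3 →
        ((univ.filter (fun y => inc x y = true)) ∩ (univ.filter (fun y => inc z y = true))).card = 2 := by
      decide
    intro i j hij b hb b' hb'
    obtain ⟨y, hy, rfl⟩ := mem_image.1 hb
    obtain ⟨z, hz, rfl⟩ := mem_image.1 hb'
    rw [dblk_eq, dblk_eq, ← image_inter _ _ toB_bij.1, card_image_of_injective _ toB_bij.1]
    apply h
    rw [(mem_filter.1 hy).2, (mem_filter.1 hz).2]
    exact fun e => hij (Fin.ext e)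

theorem not_classical : ¬ IsClassical B0 := by
  rintro ⟨K, iF, iT, d, v, e, hd, _, _⟩
  have h1 := Fintype.card_congr e
  classical
  rw [Fintype.card_fun, Fintype.card_fin, Fintype.card_fin] at h1
  obtain ⟨m, rfl⟩ : ∃ m, d = m + 2 := ⟨d - 2, by omega⟩
  set q := Fintype.card K
  have h2 : 18 = q ^ m * (q * q) := by rw [h1]; ring
  rcases Nat.even_or_odd' q with ⟨k, hk | hk⟩
  · have : 4 ∣ 18 := ⟨q ^ m * (k * k), by rw [h2, hk]; ring⟩
    omega
  · have h3 : Odd (q ^ (m + 2)) := Odd.pow ⟨k, hk⟩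
    rw [← h1] at h3
    exact absurd h3 (by decide)

/-- the map with the given table of values -/
def tf (l : List ℕ) (x : Fin 18) : Fin 18 := ⟨l.getD x.val 0 % 18, Nat.mod_lt _ (by norm_num)⟩

/-- tables of automorphisms taking the point `0` to each point -/
def Tl : List (List ℕ) :=
 [[0, 1, 2, 3, 4, 5, 6, 7, 8, 9, 10, 11, 12, 13, 14, 15, 16, 17],
  [1, 2, 0, 4, 5, 3, 7, 8, 6, 10, 11, 9, 13, 14, 12, 16, 17, 15],
  [2, 0, 1, 5, 3, 4, 8, 6, 7, 11, 9, 10, 14, 12, 13, 17, 15, 16],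
  [3, 4, 5, 0, 1, 2, 6, 7, 8, 9, 10, 11, 15, 16, 17, 12, 13, 14],
  [4, 5, 3, 1, 2, 0, 7, 8, 6, 10, 11, 9, 16, 17, 15, 13, 14, 12],
  [5, 3, 4, 2, 0, 1, 8, 6, 7, 11, 9, 10, 17, 15, 16, 14, 12, 13],
  [6, 7, 8, 1, 2, 0, 5, 3, 4, 10, 11, 9, 14, 12, 13, 15, 16, 17],
  [7, 8, 6, 2, 0, 1, 3, 4, 5, 11, 9, 10, 12, 13, 14, 16, 17, 15],
  [8, 6, 7, 0, 1, 2, 4, 5, 3, 9, 10, 11, 13, 14, 12, 17, 15, 16],
  [9, 10, 11, 1, 2, 0, 5, 3, 4, 7, 8, 6, 17, 15, 16, 12, 13, 14],
  [10, 11, 9, 2, 0, 1, 3, 4, 5, 8, 6, 7, 15, 16, 17, 13, 14, 12],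
  [11, 9, 10, 0, 1, 2, 4, 5, 3, 6, 7, 8, 16, 17, 15, 14, 12, 13],
  [12, 13, 14, 0, 1, 2, 5, 3, 4, 8, 6, 7, 10, 11, 9, 16, 17, 15],
  [13, 14, 12, 1, 2, 0, 3, 4, 5, 6, 7, 8, 11, 9, 10, 17, 15, 16],
  [14, 12, 13, 2, 0, 1, 4, 5, 3, 7, 8, 6, 9, 10, 11, 15, 16, 17],
  [15, 16, 17, 1, 2, 0, 4, 5, 3, 8, 6, 7, 12, 13, 14, 11, 9, 10],
  [16, 17, 15, 2, 0, 1, 5, 3, 4, 6, 7, 8, 13, 14, 12, 9, 10, 11],
  [17, 15, 16, 0, 1, 2, 3, 4, 5, 7, 8, 6, 14, 12, 13, 10, 11, 9]]

/-- tables of automorphisms fixing the point `0` and taking `1` to `1, 2` and `3` to `3, …, 17` -/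
def Sl : List (List ℕ) :=
 [[],
  [0, 1, 2, 3, 4, 5, 6, 7, 8, 9, 10, 11, 12, 13, 14, 15, 16, 17],
  [0, 2, 1, 3, 5, 4, 7, 6, 8, 10, 9, 11, 17, 16, 15, 14, 13, 12],
  [0, 1, 2, 3, 4, 5, 6, 7, 8, 9, 10, 11, 12, 13, 14, 15, 16, 17],
  [0, 1, 2, 4, 5, 3, 8, 6, 7, 13, 14, 12, 17, 15, 16, 9, 10, 11],
  [0, 1, 2, 5, 3, 4, 7, 8, 6, 15, 16, 17, 11, 9, 10, 13, 14, 12],
  [0, 1, 2, 6, 7, 8, 3, 4, 5, 15, 16, 17, 12, 13, 14, 9, 10, 11],
  [0, 1, 2, 7, 8, 6, 5, 3, 4, 13, 14, 12, 11, 9, 10, 15, 16, 17],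
  [0, 1, 2, 8, 6, 7, 4, 5, 3, 9, 10, 11, 17, 15, 16, 13, 14, 12],
  [0, 1, 2, 9, 10, 11, 3, 4, 5, 12, 13, 14, 15, 16, 17, 6, 7, 8],
  [0, 1, 2, 10, 11, 9, 5, 3, 4, 16, 17, 15, 8, 6, 7, 12, 13, 14],
  [0, 1, 2, 11, 9, 10, 4, 5, 3, 6, 7, 8, 14, 12, 13, 16, 17, 15],
  [0, 1, 2, 12, 13, 14, 5, 3, 4, 8, 6, 7, 16, 17, 15, 10, 11, 9],
  [0, 1, 2, 13, 14, 12, 4, 5, 3, 17, 15, 16, 9, 10, 11, 8, 6, 7],
  [0, 1, 2, 14, 12, 13, 3, 4, 5, 10, 11, 9, 7, 8, 6, 17, 15, 16],
  [0, 1, 2, 15, 16, 17, 5, 3, 4, 11, 9, 10, 13, 14, 12, 7, 8, 6],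
  [0, 1, 2, 16, 17, 15, 4, 5, 3, 14, 12, 13, 6, 7, 8, 11, 9, 10],
  [0, 1, 2, 17, 15, 16, 3, 4, 5, 7, 8, 6, 10, 11, 9, 14, 12, 13]]

/-- `l` is the table of an automorphism -/
def good (l : List ℕ) : Prop :=
  Function.Injective (tf l) ∧ ∀ y : Fin 18, ∃ z : Fin 18, ∀ x : Fin 18, inc x y = inc (tf l x) z

instance (l : List ℕ) : Decidable (good l) := by unfold good; infer_instance

/-- the automorphism group -/
def autB0 : Subgroup (Equiv.Perm (Fin 18)) where
  carrier := {g | B0.image (fun b => b.image g) = B0}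
  mul_mem' := by
    intro g h hg hh
    simp only [Set.mem_ofPred_eq] at hg hh ⊢
    have h1 : (fun b : Finset (Fin 18) => b.image (g * h)) =
        (fun b : Finset (Fin 18) => b.image g) ∘ (fun b : Finset (Fin 18) => b.image h) := by
      funext b
      simp only [Function.comp_apply, image_image]
      rfl
    rw [h1, ← image_image, hh, hg]
  one_mem' := by
    change B0.image (fun b => b.image (1 : Equiv.Perm (Fin 18))) = B0
    simp
  inv_mem' := by
    intro g hg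
    simp only [Set.mem_ofPred_eq] at hg ⊢
    conv_lhs => rw [← hg]
    rw [image_image]
    have h1 : ((fun b : Finset (Fin 18) => b.image (g⁻¹ : Equiv.Perm (Fin 18))) ∘
        fun b : Finset (Fin 18) => b.image g) = id := by
      funext b
      simp only [Function.comp_apply, image_image, id]
      have : ((g⁻¹ : Equiv.Perm (Fin 18)) : Fin 18 → Fin 18) ∘ g = id := by
        funext x
        simp
      rw [this, image_id]
    rw [h1, image_id]

theorem exists_perm (l : List ℕ) (h : good l) : ∃ g ∈ autB0, ∀ x, g x = tf l x := by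
  obtain ⟨h1, h2⟩ := h
  refine ⟨Equiv.ofBijective (tf l) (Finite.injective_iff_bijective.1 h1), ?_, fun x => rfl⟩
  set g := Equiv.ofBijective (tf l) (Finite.injective_iff_bijective.1 h1) with hg
  have hgx : ∀ x, g x = tf l x := fun x => rfl
  change B0.image (fun b => b.image g) = B0
  have hsub : B0.image (fun b => b.image g) ⊆ B0 := by
    intro b hb
    obtain ⟨c, hc, rfl⟩ := mem_image.1 hb
    obtain ⟨y, _, rfl⟩ := mem_image.1 hc
    obtain ⟨z, hz⟩ := h2 y
    refine mem_image.2 ⟨z, mem_univ _, ?_⟩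
    ext x
    simp only [blk, mem_filter, mem_univ, true_and, mem_image]
    constructor
    · intro hx
      refine ⟨g.symm x, ?_, g.apply_symm_apply x⟩
      rw [hz (g.symm x), ← hgx, g.apply_symm_apply]
      exact hx
    · rintro ⟨w, hw, rfl⟩
      rw [hgx, ← hz w]
      exact hw
  apply eq_of_subset_of_card_le hsub
  rw [card_image_of_injective _ (image_injective g.injective)]

theorem goodT : ∀ k : Fin 18, good (Tl.getD k.val []) ∧ tf (Tl.getD k.val []) 0 = k := by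
  decide

theorem goodS : ∀ k : Fin 18, k ≠ 0 → good (Sl.getD k.val []) ∧ tf (Sl.getD k.val []) 0 = 0 ∧
    tf (Sl.getD k.val []) (if k.val < 3 then 1 else 3) = k := by
  decide

theorem joined_iff : ∀ x y : Fin 18, Joined B0 x y ↔ x.val / 3 ≠ y.val / 3 := by
  intro x y
  have h1 : ∀ x y : Fin 18, x.val / 3 ≠ y.val / 3 → ∃ z, inc x z = true ∧ inc y z = true := by decide
  have h2 : ∀ x y : Fin 18, x.val / 3 = y.val / 3 → x ≠ y → ∀ z, inc x z = true → inc y z = true →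
      False := by decide
  constructor
  · rintro ⟨hne, b, hb, hx, hy⟩ he
    obtain ⟨z, _, rfl⟩ := mem_image.1 hb
    exact h2 x y he hne z (mem_filter.1 hx).2 (mem_filter.1 hy).2
  · intro h
    obtain ⟨z, hz1, hz2⟩ := h1 x y h
    exact ⟨fun e => h (by rw [e]), blk z, mem_image_of_mem _ (mem_univ _),
      mem_filter.2 ⟨mem_univ _, hz1⟩, mem_filter.2 ⟨mem_univ _, hz2⟩⟩

/-- every pair of distinct points is the image of `(0, 1)` or `(0, 3)` -/
theorem reach (x y : Fin 18) (hne : x ≠ y) : ∃ g ∈ autB0,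
    g 0 = x ∧ ((g 1 = y ∧ ¬ Joined B0 x y) ∨ (g 3 = y ∧ Joined B0 x y)) := by
  obtain ⟨t, ht, htx⟩ := exists_perm _ (goodT x).1
  have ht0 : t 0 = x := by rw [htx]; exact (goodT x).2
  have hk : t.symm y ≠ 0 := by
    intro h
    rw [Equiv.symm_apply_eq, ht0] at h
    exact hne h.symm
  obtain ⟨h1, h2, h3⟩ := goodS (t.symm y) hk
  obtain ⟨u, hu, hux⟩ := exists_perm _ h1
  have hg : t * u ∈ autB0 := autB0.mul_mem ht hu
  have hg0 : (t * u) 0 = x := by
    rw [Equiv.Perm.mul_apply, hux, h2, ht0]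
  have hpres : ∀ a b : Fin 18, Joined B0 a b → Joined B0 ((t * u) a) ((t * u) b) := by
    rintro a b ⟨hab, c, hc, hac, hbc⟩
    refine ⟨fun e => hab ((t * u).injective e), c.image (t * u), ?_, mem_image_of_mem _ hac,
      mem_image_of_mem _ hbc⟩
    have h := hg
    change B0.image (fun b => b.image (t * u)) = B0 at h
    rw [← h]
    exact mem_image_of_mem _ hc
  have hpres' : ∀ a b : Fin 18, Joined B0 ((t * u) a) ((t * u) b) → Joined B0 a b := by
    intro a b hab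
    have h := autB0.inv_mem hg
    change B0.image (fun b => b.image ((t * u)⁻¹ : Equiv.Perm (Fin 18))) = B0 at h
    obtain ⟨hab, c, hc, hac, hbc⟩ := hab
    refine ⟨fun e => hab (by rw [e]), c.image ((t * u)⁻¹ : Equiv.Perm (Fin 18)), ?_, ?_, ?_⟩
    · rw [← h]
      exact mem_image_of_mem _ hc
    · exact mem_image.2 ⟨_, hac, by simp⟩
    · exact mem_image.2 ⟨_, hbc, by simp⟩
  refine ⟨t * u, hg, hg0, ?_⟩
  by_cases hlt : (t.symm y).val < 3
  · left
    rw [if_pos hlt] at h3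
    have h4 : (t * u) 1 = y := by
      rw [Equiv.Perm.mul_apply, hux, h3, Equiv.apply_symm_apply]
    refine ⟨h4, fun hj => ?_⟩
    rw [← h4, ← hg0] at hj
    exact (joined_iff 0 1).1 (hpres' _ _ hj) rfl
  · right
    rw [if_neg hlt] at h3
    have h4 : (t * u) 3 = y := by
      rw [Equiv.Perm.mul_apply, hux, h3, Equiv.apply_symm_apply]
    refine ⟨h4, ?_⟩
    rw [← h4, ← hg0]
    exact hpres _ _ ((joined_iff 0 3).2 (by decide))

/-- There is a symmetric `(3, 2)`-net on `18` points which is not classical and has a group `G` of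
automorphisms that is transitive on the ordered pairs of joined points and also on the ordered
pairs of distinct non-joined points. -/
theorem result : ∃ B : Finset (Finset (Fin 18)), IsSymmetricNet 3 2 B ∧ ¬ IsClassical B ∧
    ∃ G : Subgroup (Equiv.Perm (Fin 18)),
      (∀ g ∈ G, B.image (fun b => b.image g) = B) ∧
      (∀ x y x' y' : Fin 18, Joined B x y → Joined B x' y' → ∃ g ∈ G, g x = x' ∧ g y = y') ∧
      (∀ x y x' y' : Fin 18, x ≠ y → ¬ Joined B x y → x' ≠ y' → ¬ Joined B x' y' →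
        ∃ g ∈ G, g x = x' ∧ g y = y') := by
  refine ⟨B0, ⟨by norm_num, by norm_num, by norm_num, isNet0, isNet1⟩, not_classical, autB0,
    fun g hg => hg, ?_, ?_⟩
  · intro x y x' y' h h'
    obtain ⟨g, hg, h0, h1⟩ := reach x y h.1
    obtain ⟨g', hg', h0', h1'⟩ := reach x' y' h'.1
    rcases h1 with h1 | h1
    · exact absurd h h1.2
    rcases h1' with h1' | h1'
    · exact absurd h' h1'.2
    refine ⟨g' * g⁻¹, autB0.mul_mem hg' (autB0.inv_mem hg), ?_, ?_⟩
    · have e : (g⁻¹ : Equiv.Perm (Fin 18)) x = 0 := by rw [← h0]; simp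
      rw [Equiv.Perm.mul_apply, e, h0']
    · have e : (g⁻¹ : Equiv.Perm (Fin 18)) y = 3 := by rw [← h1.1]; simp
      rw [Equiv.Perm.mul_apply, e, h1'.1]
  · intro x y x' y' hne h hne' h'
    obtain ⟨g, hg, h0, h1⟩ := reach x y hne
    obtain ⟨g', hg', h0', h1'⟩ := reach x' y' hne'
    rcases h1 with h1 | h1
    swap
    · exact absurd h1.2 h
    rcases h1' with h1' | h1'
    swap
    · exact absurd h1'.2 h'
    refine ⟨g' * g⁻¹, autB0.mul_mem hg' (autB0.inv_mem hg), ?_, ?_⟩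
    · have e : (g⁻¹ : Equiv.Perm (Fin 18)) x = 0 := by rw [← h0]; simp
      rw [Equiv.Perm.mul_apply, e, h0']
    · have e : (g⁻¹ : Equiv.Perm (Fin 18)) y = 1 := by rw [← h1.1]; simp
      rw [Equiv.Perm.mul_apply, e, h1'.1]

end Pool.Agent.Results.MP_36fbc5_co.HexacodeNet
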